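import Mathlib
import Pool.Agent.FF.Final

/-!
# The number of faces of a centrally symmetric polytope with few facets or few vertices
-/

set_option autoImplicit false

namespace Pool.Agent.Results.MP_28dd0e_co.FewFacets

theorem result :
    ∀ (d n : ℕ) (a : Fin n → EuclideanSpace ℝ (Fin d)) (P : Set (EuclideanSpace ℝ (Fin d))),
      (P = {x | ∀ i, |inner ℝ (a i) x| ≤ 1} ∧ Bornology.IsBounded P) ∨
        (P = convexHull ℝ (Set.range a ∪ Set.range (fun i => -a i)) ∧
          (interior P).Nonempty) →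
      d ≤ n ∧ (3 : ℕ∞) ^ d * ((n - d).factorial : ℕ) ≤
        (22 * (n : ℕ∞)) ^ (n - d) *
          {F : Set (EuclideanSpace ℝ (Fin d)) | F.Nonempty ∧ IsExposed ℝ P F}.encard :=
  fun _ _ a P hP => Pool.Agent.FF.final_exact a P hP

end Pool.Agent.Results.MP_28dd0e_co.FewFacets
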