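import Mathlib
import Pool.Agent.GRD.Geom
import Pool.Agent.KEQ.Kal4

/-!
# Kalai's inequality for polytopes whose Gale vectors lie on few lines
-/

set_option autoImplicit false

namespace Pool.Agent.Results.MP_28dd0e_co.GaleLines

theorem result :
    ∀ K : ℕ, 4 ≤ K →
      (∀ j : ℕ, 5 ≤ j → j ≤ K → ∀ S : Finset (EuclideanSpace ℝ (Fin j)),
        (interior (convexHull ℝ (S : Set (EuclideanSpace ℝ (Fin j))))).Nonempty →
        (∀ x ∈ convexHull ℝ (S : Set (EuclideanSpace ℝ (Fin j))),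
          -x ∈ convexHull ℝ (S : Set (EuclideanSpace ℝ (Fin j)))) →
        (3 : ℕ∞) ^ j ≤
          {F : Set (EuclideanSpace ℝ (Fin j)) |
            F.Nonempty ∧
              IsExposed ℝ (convexHull ℝ (S : Set (EuclideanSpace ℝ (Fin j)))) F}.encard) →
    ∀ (d n p : ℕ) (a : Fin n → EuclideanSpace ℝ (Fin d)) (c : Fin n → Fin p) (w : Fin n → ℝ),
      p + d ≤ n + K →
      (∀ β : Fin n → ℝ, ∑ i, β i • a i = 0 →
        ∃ γ : Fin p → ℝ, ∀ i, β i = γ (c i) * w i) →
    ∀ P : Set (EuclideanSpace ℝ (Fin d)),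
      (P = {x | ∀ i, |inner ℝ (a i) x| ≤ 1} ∧ Bornology.IsBounded P) ∨
        (P = convexHull ℝ (Set.range a ∪ Set.range (fun i => -a i)) ∧
          (interior P).Nonempty) →
      (3 : ℕ∞) ^ d ≤
        {F : Set (EuclideanSpace ℝ (Fin d)) | F.Nonempty ∧ IsExposed ℝ P F}.encard := by
  intro K _ hK d n p a c w hp hG P hP
  refine Pool.Agent.GRD.final K ?_ a c w hp hG P hP
  intro j h4 hj S hint hsym
  rcases h4.eq_or_lt with rfl | h5
  · exact Pool.Agent.KEQ.kal4 S hint hsym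
  · exact hK j h5 hj S hint hsym

end Pool.Agent.Results.MP_28dd0e_co.GaleLines
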