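import Mathlib
import Pool.Agent.HNS.Fin

/-!
# Kalai's 3^d conjecture for the Hansen polytopes of perfect graphs
-/

set_option autoImplicit false

namespace Pool.Agent.Results.MP_28dd0e_co.HansenPolytopes

open Pool.Agent.K3R

theorem result :
    ∀ (n : ℕ) (G : SimpleGraph (Fin n)),
      (∀ s : Set (Fin n), (G.induce s).chromaticNumber = ((G.induce s).cliqueNum : ℕ∞)) →
      (3 : ℕ∞) ^ (n + 1) ≤
        {F : Set (EuclideanSpace ℝ (Fin (n + 1))) |
          F.Nonempty ∧ IsExposed ℝ (convexHull ℝ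
            {x : EuclideanSpace ℝ (Fin (n + 1)) | ∃ T : Finset (Fin n),
              (∀ a ∈ T, ∀ b ∈ T, ¬ G.Adj a b) ∧
              (x = WithLp.toLp 2 (Fin.cons (1 : ℝ) fun i => if i ∈ T then (1 : ℝ) else 0) ∨
                x = -WithLp.toLp 2 (Fin.cons (1 : ℝ) fun i => if i ∈ T then (1 : ℝ) else 0))})
            F}.encard := by
  intro n G hG
  have h1 := Pool.Agent.HNS.poly n G hG
  have h2 : toE n '' HS G Finset.univ =
      {x : EuclideanSpace ℝ (Fin (n + 1)) | ∃ T : Finset (Fin n),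
        (∀ a ∈ T, ∀ b ∈ T, ¬ G.Adj a b) ∧
        (x = WithLp.toLp 2 (Fin.cons (1 : ℝ) fun i => if i ∈ T then (1 : ℝ) else 0) ∨
          x = -WithLp.toLp 2 (Fin.cons (1 : ℝ) fun i => if i ∈ T then (1 : ℝ) else 0))} := by
    ext x
    constructor
    · rintro ⟨_, ⟨T, _, hs, rfl | rfl⟩, rfl⟩
      · exact ⟨T, hs, Or.inl rfl⟩
      · refine ⟨T, hs, Or.inr ?_⟩
        rw [map_neg]
        rfl
    · rintro ⟨T, hs, hx⟩
      rcases hx with hx | hx
      · exact ⟨pt T, pt_mem (Finset.subset_univ T) hs, hx.symm⟩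
      · refine ⟨-pt T, npt_mem (Finset.subset_univ T) hs, ?_⟩
        rw [map_neg, hx]
        rfl
  rw [h2] at h1
  exact h1

end Pool.Agent.Results.MP_28dd0e_co.HansenPolytopes
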