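import Mathlib
import Pool.Agent.K3R.Bridge
import Pool.Agent.KEQ.Kal4

/-!
# Kalai's inequality for polytopes closed under many commuting coordinate deletions
-/

set_option autoImplicit false

namespace Pool.Agent.Results.MP_28dd0e_co.PartlyUnconditional

open Pool.Agent.K3R

theorem result :
    ∀ K : ℕ, 4 ≤ K →
      (∀ j : ℕ, 5 ≤ j → j ≤ K → ∀ S : Finset (EuclideanSpace ℝ (Fin j)),
        (interior (convexHull ℝ (S : Set (EuclideanSpace ℝ (Fin j))))).Nonempty →
        (∀ x ∈ convexHull ℝ (S : Set (EuclideanSpace ℝ (Fin j))),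
          -x ∈ convexHull ℝ (S : Set (EuclideanSpace ℝ (Fin j)))) →
        (3 : ℕ∞) ^ j ≤
          {F : Set (EuclideanSpace ℝ (Fin j)) |
            F.Nonempty ∧
              IsExposed ℝ (convexHull ℝ (S : Set (EuclideanSpace ℝ (Fin j)))) F}.encard) →
    ∀ (d m : ℕ) (S : Finset (EuclideanSpace ℝ (Fin d)))
      (e : Fin m → EuclideanSpace ℝ (Fin d))
      (f : Fin m → (EuclideanSpace ℝ (Fin d) →ₗ[ℝ] ℝ)),
      d ≤ m + K →
      (∀ i k, f i (e k) = if i = k then 1 else 0) →
      0 ∈ interior (convexHull ℝ (S : Set (EuclideanSpace ℝ (Fin d)))) →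
      (∀ i, ∀ x ∈ convexHull ℝ (S : Set (EuclideanSpace ℝ (Fin d))),
        x - f i x • e i ∈ convexHull ℝ (S : Set (EuclideanSpace ℝ (Fin d)))) →
      (∀ x ∈ convexHull ℝ (S : Set (EuclideanSpace ℝ (Fin d))),
        (2 : ℝ) • (∑ i, f i x • e i) - x ∈
          convexHull ℝ (S : Set (EuclideanSpace ℝ (Fin d)))) →
      (3 : ℕ∞) ^ d ≤
        {F : Set (EuclideanSpace ℝ (Fin d)) |
          F.Nonempty ∧
            IsExposed ℝ (convexHull ℝ (S : Set (EuclideanSpace ℝ (Fin d)))) F}.encard := by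
  intro K _ hK d m S e f hdm hb h0 hdel hsg
  have hK' : ∀ j, 4 ≤ j → j ≤ K → Kal j := by
    intro j h4 hj
    rcases Nat.lt_or_ge 4 j with h5 | h5
    · exact hK j h5 hj
    · have h44 : j = 4 := le_antisymm h5 h4
      subst h44
      exact Pool.Agent.KEQ.kal4
  have h1 := poly_main K hK' d m hdm (S : Set _) S.finite_toSet h0 e f hb hdel
  have h2 := h1 hsg
  exact h2

end Pool.Agent.Results.MP_28dd0e_co.PartlyUnconditional
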