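import Mathlib
import Pool.Agent.GRD.K2
import Pool.Agent.K2L.Final

/-!
# Kalai's inequality for centrally symmetric polytopes with at most `d + 2` pairs of facets or of
vertices
-/

set_option autoImplicit false

namespace Pool.Agent.Results.MP_28dd0e_co.TwoMore

theorem result :
    ∀ (d n : ℕ) (a : Fin n → EuclideanSpace ℝ (Fin d)), n ≤ d + 2 →
    ∀ P : Set (EuclideanSpace ℝ (Fin d)),
      (P = {x | ∀ i, |inner ℝ (a i) x| ≤ 1} ∧ Bornology.IsBounded P) ∨
        (P = convexHull ℝ (Set.range a ∪ Set.range (fun i => -a i)) ∧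
          (interior P).Nonempty) →
      (3 : ℕ∞) ^ d ≤
        {F : Set (EuclideanSpace ℝ (Fin d)) | F.Nonempty ∧ IsExposed ℝ P F}.encard := by
  intro d n a hn P hP
  exact Pool.Agent.GRD.final2 Pool.Agent.K2L.hS a hn P hP

end Pool.Agent.Results.MP_28dd0e_co.TwoMore
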